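import Pool.Agent.MP_c60df9_co.H48.Shift

set_option autoImplicit false

namespace Pool.Agent.Results.MP_c60df9_co.IntegerShift

open Pool.Agent.MP_c60df9_co.H39 Pool.Agent.MP_c60df9_co.H48

/-- If a minor-closed class of bounded tree-width with critical density `β` omits some
`K_{k+5,t}`, then `β + k` is the density of a minor-balanced graph. -/
theorem result :
    ∀ P : (n : ℕ) → SimpleGraph (Fin n) → Prop,
      (∀ (n m : ℕ) (G : SimpleGraph (Fin n)) (H : SimpleGraph (Fin m)), P n G →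
        (∃ B : Fin m → Set (Fin n), (∀ i, (G.induce (B i)).Connected) ∧
          (∀ i j, i ≠ j → Disjoint (B i) (B j)) ∧
          ∀ i j, H.Adj i j → ∃ x ∈ B i, ∃ y ∈ B j, G.Adj x y) → P m H) →
      (∃ w : ℕ, ∀ (n : ℕ) (G : SimpleGraph (Fin n)), P n G →
        ∃ (l : ℕ) (T : SimpleGraph (Fin l)) (X : Fin l → Set (Fin n)), T.IsTree ∧
          (∀ v, (T.induce {i | v ∈ X i}).Connected) ∧
          (∀ u v, G.Adj u v → ∃ i, u ∈ X i ∧ v ∈ X i) ∧ ∀ i, (X i).ncard ≤ w + 1) →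
      ∀ β : ℝ,
        IsLUB {d : ℝ | ∃ n : ℕ, 0 < n ∧ ∃ G : SimpleGraph (Fin n),
          P n G ∧ d = (Nat.card G.edgeSet : ℝ) / (n : ℝ)} β →
        ∀ k : ℕ, (∃ t : ℕ, ¬ P (k + 5 + t) (SimpleGraph.fromRel fun i j : Fin (k + 5 + t) =>
            i.val < k + 5 ∧ k + 5 ≤ j.val)) →
          ∃ n : ℕ, 0 < n ∧ ∃ G : SimpleGraph (Fin n),
            (Nat.card G.edgeSet : ℝ) / (n : ℝ) = β + k ∧
            ∀ m : ℕ, 0 < m → ∀ H : SimpleGraph (Fin m),
              (∃ B : Fin m → Set (Fin n), (∀ i, (G.induce (B i)).Connected) ∧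
                (∀ i j, i ≠ j → Disjoint (B i) (B j)) ∧
                ∀ i j, H.Adj i j → ∃ x ∈ B i, ∃ y ∈ B j, G.Adj x y) →
              (Nat.card H.edgeSet : ℝ) / (m : ℝ) ≤ (Nat.card G.edgeSet : ℝ) / (n : ℝ) := by
  rintro P hP ⟨w, hw⟩ β hβ k ⟨t, ht⟩
  have hP' : MC P := fun n m G H h h' => hP n m G H h (minor_iff.1 h')
  obtain ⟨n, hn, G, h1, h2⟩ := shift_tw (k := k) (t := t) hP' hβ hw fun h => ht (by
    refine Eq.mpr (congrArg (P _) ?_) (h.comap hP' finSumFinEquiv.symm)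
    ext i j
    obtain ⟨i | i, rfl⟩ := finSumFinEquiv.surjective i <;>
      obtain ⟨j | j, rfl⟩ := finSumFinEquiv.surjective j <;>
      simp [SimpleGraph.fromRel_adj, Fin.ext_iff] <;> omega)
  exact ⟨n, hn, G, h1, fun m hm H h => h2 m hm H (minor_iff.2 h)⟩

end Pool.Agent.Results.MP_c60df9_co.IntegerShift
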