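import Pool.Agent.MP_c60df9_co.H39.Main

set_option autoImplicit false

namespace Pool.Agent.Results.MP_c60df9_co.UpToThree

open Pool.Agent.MP_c60df9_co.H39

/-- Every critical density at most three is the density of a minor-balanced graph. -/
theorem result :
    ∀ P : (n : ℕ) → SimpleGraph (Fin n) → Prop,
      (∀ (n m : ℕ) (G : SimpleGraph (Fin n)) (H : SimpleGraph (Fin m)), P n G →
        (∃ B : Fin m → Set (Fin n), (∀ i, (G.induce (B i)).Connected) ∧
          (∀ i j, i ≠ j → Disjoint (B i) (B j)) ∧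
          ∀ i j, H.Adj i j → ∃ x ∈ B i, ∃ y ∈ B j, G.Adj x y) → P m H) →
      ∀ β : ℝ,
        IsLUB {d : ℝ | ∃ n : ℕ, 0 < n ∧ ∃ G : SimpleGraph (Fin n),
          P n G ∧ d = (Nat.card G.edgeSet : ℝ) / (n : ℝ)} β →
        β ≤ 3 →
        ∃ n : ℕ, 0 < n ∧ ∃ G : SimpleGraph (Fin n),
          (Nat.card G.edgeSet : ℝ) / (n : ℝ) = β ∧
          ∀ m : ℕ, 0 < m → ∀ H : SimpleGraph (Fin m),
            (∃ B : Fin m → Set (Fin n), (∀ i, (G.induce (B i)).Connected) ∧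
              (∀ i j, i ≠ j → Disjoint (B i) (B j)) ∧
              ∀ i j, H.Adj i j → ∃ x ∈ B i, ∃ y ∈ B j, G.Adj x y) →
            (Nat.card H.edgeSet : ℝ) / (m : ℝ) ≤ (Nat.card G.edgeSet : ℝ) / (n : ℝ) := by
  intro P hP β hβ h3
  obtain ⟨n, hn, G, h1, h2⟩ :=
    achv_le_three (fun n m G H h h' => hP n m G H h (minor_iff.1 h')) hβ h3
  exact ⟨n, hn, G, h1, fun m hm H h => h2 m hm H (minor_iff.2 h)⟩

end Pool.Agent.Results.MP_c60df9_co.UpToThree
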